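import Pool.Agent.Q41.AB.Stm2
import Pool.Agent.TH122.AB.Gal

/-!
Abelian covers of products of projective spaces are Galois over the coordinates.
-/

set_option autoImplicit false

open MvPolynomial FF IntermediateField

namespace Q43.AB

open Pool.Agent.Q41.RC (MH IsCov)
open Pool.Agent.TH122.AB (Gens galois_of_roots fixing_props gens_of)

theorem gal : Pool.Agent.Q41.AB.S_Gal := by
  intro K ρ σ κ J _ _ _ _ _ _ pr o δ F m a y z h n ε hε
  classical
  have hcK : CharZero K := charZero_of_injective_algebraMap (algebraMap ℂ K).injective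
  let Z : Fin n → K := fun b => y (ε (Sum.inr b))
  obtain ⟨E, hE⟩ : ∃ E, E = IntermediateField.adjoin ℂ (Set.range Z) := ⟨_, rfl⟩
  have hZE : ∀ b, Z b ∈ E := by
    intro b
    rw [hE]
    exact IntermediateField.subset_adjoin ℂ _ ⟨b, rfl⟩
  have hyE : ∀ i, y i ∈ E := by
    intro i
    obtain ⟨x, rfl⟩ := ε.surjective i
    rcases x with l | b
    · rw [hε, h.hy]
      exact E.one_mem
    · exact hZE b
  have hFE : ∀ c, aeval y (F c) ∈ E := by
    intro c
    have h1 : aeval y (F c) = ((aeval (fun i => (⟨y i, hyE i⟩ : E)) (F c) : E) : K) :=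
      (MvPolynomial.aeval_algebraMap_apply K (fun i => (⟨y i, hyE i⟩ : E)) (F c))
    rw [h1]
    exact Subtype.mem _
  have hzE : ∀ j, z j ^ m j ∈ E := by
    intro j
    rw [h.hz]
    exact E.prod_mem fun c _ => pow_mem (hFE c) _
  have hM : 0 < ∏ j, m j := Finset.prod_pos fun j _ => h.hm j
  have hS : ∀ w ∈ Set.range z, w ^ (∏ j, m j) ∈ E := by
    rintro _ ⟨j, rfl⟩
    obtain ⟨q, hq⟩ := Finset.dvd_prod_of_mem m (Finset.mem_univ j)
    rw [hq, pow_mul]
    exact pow_mem (hzE j) _
  have hgen : ∀ L : IntermediateField ℂ K, E ≤ L → Set.range z ⊆ L → L = ⊤ := by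
    intro L hL hSL
    rw [eq_top_iff, ← h.hgen, IntermediateField.adjoin_le_iff]
    rintro w (⟨i, rfl⟩ | hw)
    · exact hL (hyE i)
    · exact hSL hw
  obtain ⟨hfd, hgal⟩ := galois_of_roots E (Set.finite_range z) hgen hM hS
  obtain ⟨hfinG, hfix⟩ := fixing_props E
  obtain ⟨G, hG⟩ : ∃ G, G = E.fixingSubgroup := ⟨_, rfl⟩
  rw [← hG] at hfinG hfix
  have hGmem : ∀ b, Z b ∈ fixedField G := by
    intro b
    rw [hfix]
    exact hZE b
  have hne : ∀ b, ε (Sum.inr b) ≠ o (pr (ε (Sum.inr b))) := by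
    intro b h0
    rw [← hε] at h0
    exact absurd (ε.injective h0) (by simp)
  have hind : AlgebraicIndependent ℂ Z := by
    have h1 := h.hbas.1.comp (fun b : Fin n =>
      (⟨ε (Sum.inr b), hne b⟩ : {i : σ // i ≠ o (pr i)})) (by
        intro b b' hb
        have h2 := ε.injective (congrArg Subtype.val hb)
        exact Sum.inr_injective h2)
    exact h1
  exact ⟨G, hfinG, fun b => ⟨Z b, hGmem b⟩, gens_of hind (hfix.trans hE) fun j => rfl,
    fun b => rfl⟩

end Q43.AB
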